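import Mathlib
import Pool.Agent.X115.BZ2

/-!
# All zeros of `J_ν'` are real for `-101/100 ≤ ν < -1`

So the count of `4 s` nonreal zeros for `ν ∈ (n - 2 s - 1, n - 2 s)` fails for `n = 1`, `s = 1`.

Proof. With `μ = ν + 1` and `g = 0F1(; μ + 1; x)`, `x = -z²/4`, the zeros `z` of `J_ν'` correspond to
the solutions `x` of `-ν x g'(x) = (2 x + ν μ) g(x)`.  Lommel's integral
`(x - y) ∫ t^μ g(x t) g(y t) dt = x g'(x) g(y) - y g'(y) g(x)` over `[0, 1]` shows that
`-ν ∫ t^μ g(x t) g(y t) dt = 2 g(x) g(y)` for any two different solutions.  There is a solution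
`q ∈ (-1/10, 0)`, and the Cauchy-Schwarz inequality for `q` and a nonreal solution gives a
contradiction.
-/

set_option autoImplicit false

open Finset Filter Topology Pool.Agent.X115.FCP

namespace Pool.Agent.Results.MP_cdfc49_an.OnlyRealZeros

/-- The entire function `G_{ν,n}` with `J_ν^(n)(z) = 2^(-n) (z/2)^(ν-n) G_{ν,n}(z)`. -/
noncomputable def G (ν : ℝ) (n : ℕ) (z : ℂ) : ℂ :=
  ∑' m : ℕ, (((-1) ^ m * (∏ i ∈ range n, (ν + 2 * m - i)) /
    (m.factorial * Real.Gamma (ν + m + 1)) : ℝ) : ℂ) * (z / 2) ^ (2 * m)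

/-- `f` has exactly `N` zeros in `S`, counted with multiplicity. -/
def ExactlyZeros (f : ℂ → ℂ) (S : Set ℂ) (N : ℕ) : Prop :=
  {z | z ∈ S ∧ f z = 0}.Finite ∧ ∑ᶠ z ∈ {z | z ∈ S ∧ f z = 0}, analyticOrderNatAt f z = N

lemma G_one {ν : ℝ} (hν : ∀ k : ℤ, ν ≠ k) {δ : ℝ} (h : Pool.Agent.X115.FCP.Sep ν δ) (z : ℂ) :
    G ν 1 z = ((1 / Real.Gamma (ν + 1) : ℝ) : ℂ) * Pool.Agent.X115.BZ.S1 ν (-(z / 2) ^ 2) := by
  rw [← (Pool.Agent.X115.BZ.hasSum_S1 h (-(z / 2) ^ 2)).tsum_eq, ← tsum_mul_left]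
  unfold G
  refine tsum_congr fun m => ?_
  have e1 : ((-1) ^ m * (∏ i ∈ range 1, (ν + 2 * m - i)) / (m.factorial * Real.Gamma (ν + m + 1)) : ℝ)
      = (-1) ^ m * ((1 / Real.Gamma (ν + 1)) * ((ν + 2 * m) * cf ν m)) := by
    rw [range_one, prod_singleton, Nat.cast_zero, sub_zero, div_eq_mul_one_div,
      Pool.Agent.X115.BZ.coeff_eq hν]
    ring
  have e2 : (-(z / 2) ^ 2) ^ m = (-1) ^ m * (z / 2) ^ (2 * m) := by rw [neg_pow, ← pow_mul]
  rw [e1, e2]
  push_cast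
  ring

/-- **Main result.** For `-101/100 ≤ ν < -1` all zeros of `J_ν'` are real, and the assertion of Q1 is
false (`n = 1`, `s = 1`). -/
theorem result :
    (∀ ν : ℝ, -101 / 100 ≤ ν → ν < -1 → ∀ z : ℂ, G ν 1 z = 0 → z.im = 0) ∧
    ¬ ∀ (n s : ℕ) (ν : ℝ), 1 ≤ s → ν ∈ Set.Ioo ((n : ℝ) - 2 * s - 1) (n - 2 * s) →
      ExactlyZeros (G ν n) {z | z.im ≠ 0} (4 * s) ∧
        ∀ z : ℂ, z.re = 0 → z.im ≠ 0 → G ν n z ≠ 0 := by
  have main : ∀ ν : ℝ, -101 / 100 ≤ ν → ν < -1 → ∀ z : ℂ, G ν 1 z = 0 → z.im = 0 := by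
    intro ν h1 h2 z hz
    have hν : ∀ k : ℤ, ν ≠ k := by
      rintro k rfl
      have a1 : (-2 : ℝ) < k := by linarith
      have a2 : -2 < k := by exact_mod_cast a1
      have a3 : k < -1 := by exact_mod_cast h2
      omega
    have hs : Pool.Agent.X115.FCP.Sep ν (-1 - ν) := by
      refine ⟨by linarith, fun i => ?_⟩
      rcases Nat.eq_zero_or_pos i with h | h
      · rw [h, Nat.cast_zero, add_zero, abs_of_neg (by linarith)]; linarith
      · have : (1 : ℝ) ≤ i := by exact_mod_cast h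
        rw [abs_of_pos (by linarith)]; linarith
    rw [G_one hν hs] at hz
    have h3 : ((1 / Real.Gamma (ν + 1) : ℝ) : ℂ) ≠ 0 := by
      have := Pool.Agent.X115.BZ.gamma_ne hν
      exact_mod_cast (one_div_ne_zero this)
    have h4 : Pool.Agent.X115.BZ.S1 ν (-(z / 2) ^ 2) = 0 := by
      rcases mul_eq_zero.1 hz with h | h
      · exact absurd h h3
      · exact h
    have h5 := Pool.Agent.X115.BZ.real_one h1 h2 h4
    set x : ℂ := -(z / 2) ^ 2 with hx
    have hre : x = (x.re : ℂ) := by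
      apply Complex.ext
      · simp
      · rw [h5]; simp
    have hneg : x.re < 0 := by
      by_contra hcon
      push Not at hcon
      apply Pool.Agent.X115.BZ.S1_neg h1 h2 hcon
      rw [← hre]; exact h4
    have e1 : x.re = -((z.re ^ 2 - z.im ^ 2) / 4) := by
      rw [hx]
      simp only [Complex.neg_re, sq, Complex.mul_re, Complex.div_ofNat_re, Complex.div_ofNat_im]
      ring
    have e2 : x.im = -(z.re * z.im / 2) := by
      rw [hx]
      simp only [Complex.neg_im, sq, Complex.mul_im, Complex.div_ofNat_re, Complex.div_ofNat_im]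
      ring
    rw [e2] at h5
    rw [e1] at hneg
    have h6 : z.re * z.im = 0 := by linarith
    rcases mul_eq_zero.1 h6 with h | h
    · rw [h] at hneg
      nlinarith [sq_nonneg z.im]
    · exact h
  refine ⟨main, fun H => ?_⟩
  obtain ⟨⟨-, h2⟩, -⟩ := H 1 1 (-101 / 100) le_rfl (by push_cast; constructor <;> norm_num)
  have h3 : {z : ℂ | z ∈ {z : ℂ | z.im ≠ 0} ∧ G (-101 / 100) 1 z = 0} = ∅ := by
    ext z
    simp only [Set.mem_ofPred_eq, Set.mem_empty_iff_false, iff_false, not_and]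
    intro h4 h5
    exact h4 (main _ le_rfl (by norm_num) z h5)
  rw [h3] at h2
  simp at h2

end Pool.Agent.Results.MP_cdfc49_an.OnlyRealZeros
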